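import Mathlib
import Pool.Agent.Results.MP_6e2fc3_nt.CMFormsAllWeights

/-!
# The parity conjecture at `p = 2` for CM forms of all weights over infinite towers of totally real
# fields

Let `E_M` be the quadratic twist by `M` of `X_0(49)`, `ψ_M` its Hecke character over
`K = ℚ(√-7) = ℚ(w)`, `w² = w - 2`. For every odd `k > 0` and every totally real field
`F = ℚ(√d_1, …, √d_n)` the newform of `ψ_M^{2k-1}` has a base change to `F`, a Hilbert modular
newform `g` of parallel weight `2k`; its Galois representation `V_g` at the prime `2` is the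
restriction to `Gal(ℚ̄/F)` of the representation of `Gal(ℚ̄/ℚ)` induced from the character
`κ^k κ'^(1-k)` of `Gal(ℚ̄/K)`.

Theorem: for at least the proportion `0.419…` of the `M` in the class there is an infinite sequence
`D_0, D_1, …` of natural numbers such that, for all `n`, the field `F_n = ℚ(√D_0, …, √D_{n-1})` has
degree `2^n` and `H¹_f(F_n, V_g) = 0` for the forms `g` over `F_n` of all the weights `2k`, `k` odd.

The root numbers of these forms are `1` (they are products of `2^n` root numbers of the forms of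
`ψ_D^{2k-1}`, `D > 0`, `D ≡ 1 mod 8`, which are `1` for odd `k` by the classical formulas), so that
both sides of the parity conjecture are even: it is true for `p = 2` and for all these forms over all
the fields `F_n`. (The analytic side is not part of the formal proof.)
-/

set_option autoImplicit false

namespace Pool.Agent.Results.MP_d4aa36_nt.InfiniteTowersCMForms

open Pool.Agent.Results.MP_787500_nt.AllWeightsMultiquadraticX49
open Pool.Agent.Results.MP_6e2fc3_nt.CMFormsAllWeights (AllForms)
open Filter Topology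
open scoped Classical

/-- There is an infinite sequence `D_0, D_1, …` of members of the class such that for all `n` the
field `F_n = ℚ(√D_0, …, √D_{n-1})` has degree `2 ^ n` (no product of some of the `D_i` is a square),
and `H¹_f(F_n, V) = 0` for the representations `V` of the forms of all weights `2k`, `k` odd. -/
def InfiniteTower (M : ℕ) : Prop :=
  ∃ D : ℕ → ℕ, (∀ i, Adm (D i)) ∧ ∀ n : ℕ, Ind (fun i : Fin n => D i) ∧ AllForms M (fun i : Fin n => D i)

section proof

open Pool.Agent.Results.MP_787500_nt.AllWeightsMultiquadraticX49 in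
lemma prop_good {n M : ℕ} {d : Fin n → ℕ} (hM : Adm M) (hd : ∀ i, Adm (d i)) (hI : Ind d)
    {x : ℝ} (hx : x < c ^ 2 ^ n) :
    ∀ᶠ X : ℕ in atTop, x < prop (fun D => Good (M * D) d) X := by
  have h := Pool.Agent.R426.QB.prop_field Pool.Agent.Y687.JQ.t_JDEN (n := n)
    (d := fun i => (d i : ℤ)) (nsq_of (fun i => (hd i).1.ne_zero) hI)
    (fun i => acS_of (hd i)) (N := (M : ℤ)) (acS_of hM)
  filter_upwards [h.eventually_const_lt hx] with X hX
  refine lt_of_lt_of_le hX (prop_mono (P := fun D => Pool.Agent.R426.QB.GO (fun i => (d i : ℤ)) ((M : ℤ) * D))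
    (fun D hD => good_of ?_ (fun i => (hd i).2.1) ?_) X)
  · rw [Nat.mul_mod, hM.2.1, hD.1.2]
  · have h1 := hD.2
    push_cast
    exact h1

lemma c_pos (n : ℕ) : (0 : ℝ) < c ^ 2 ^ n := by
  have h := Pool.Agent.Results.MP_6e2fc3_nt.CMFormsAllWeights.result.2.2.2.1
  have : (0 : ℝ) < c := by linarith
  positivity

lemma exists_of_prop {P : ℕ → Prop} {X : ℕ} (h : 0 < prop P X) : ∃ D, Adm D ∧ P D := by
  unfold prop at h
  have h3 := (div_ne_zero_iff.1 (ne_of_gt h)).1
  obtain ⟨D, hD⟩ := Finset.card_pos.1 (Nat.pos_of_ne_zero (Nat.cast_ne_zero.1 h3))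
  exact ⟨D, (Finset.mem_filter.1 hD).2⟩

lemma exists_next {n M : ℕ} {d : Fin n → ℕ} (h : InClass M d) (hG : Good M d) :
    ∃ D : ℕ, Adm D ∧ Ind (add d D) ∧ Good M (add d D) := by
  have h1 := Pool.Agent.Results.MP_6e2fc3_nt.CMFormsAllWeights.result.2.2.1 n M d h hG 0 (c_pos n)
  obtain ⟨X, hX⟩ := h1.exists
  obtain ⟨D, h5, h6⟩ := exists_of_prop hX
  exact ⟨D, h5, h6.1, h6.2.1⟩

/-- the next member -/
noncomputable def next (M n : ℕ) (d : Fin n → ℕ) : ℕ :=
  if h : ∃ D : ℕ, Adm D ∧ Ind (add d D) ∧ Good M (add d D) then h.choose else 1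

/-- the sequence -/
noncomputable def tower (M : ℕ) : ℕ → ℕ := fun n => next M n fun i : Fin n => tower M i
termination_by n => n
decreasing_by exact i.2

lemma tower_eq (M n : ℕ) : tower M n = next M n fun i : Fin n => tower M i := by
  rw [tower]

lemma tower_snoc (M n : ℕ) : (fun i : Fin (n + 1) => tower M i) =
    add (fun i : Fin n => tower M i) (tower M n) := by
  funext i
  refine Fin.lastCases ?_ (fun i => ?_) i
  · simp [add]
  · simp [add]

lemma tower_spec {M : ℕ} (hM : Adm M) (hG : Good M (fun i : Fin 0 => tower M i)) (n : ℕ) :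
    InClass M (fun i : Fin n => tower M i) ∧ Good M (fun i : Fin n => tower M i) := by
  induction n with
  | zero => exact ⟨⟨hM, fun i => i.elim0, fun T hT => by
      obtain ⟨i, _⟩ := hT
      exact i.elim0⟩, hG⟩
  | succ n ih =>
    have h := exists_next ih.1 ih.2
    have hs : tower M n = h.choose := by
      rw [tower_eq, next, dif_pos h]
    obtain ⟨h1, h2, h3⟩ := h.choose_spec
    rw [← hs] at h1 h2 h3
    rw [← tower_snoc] at h2 h3
    refine ⟨⟨hM, fun i => ?_, h2⟩, h3⟩
    refine Fin.lastCases ?_ (fun i => ?_) i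
    · simpa using h1
    · simpa using ih.1.2.1 i

lemma infinite_of {M : ℕ} (hM : Adm M) (hG : Good M (fun i : Fin 0 => tower M i)) :
    InfiniteTower M := by
  refine ⟨tower M, fun i => ?_, fun n => ⟨(tower_spec hM hG n).1.2.2, ?_⟩⟩
  · have h := (tower_spec hM hG (i + 1)).1.2.1 (Fin.last i)
    simpa using h
  · exact Pool.Agent.Results.MP_6e2fc3_nt.CMFormsAllWeights.result.1 n M _ (tower_spec hM hG n).2

end proof

/-- **Infinite towers of totally real fields over which the Bloch–Kato Selmer groups of the forms of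
all weights `2k`, `k` odd, are zero**, for at least the proportion `c` of the `M`. -/
theorem result : AtLeast c InfiniteTower ∧ 0.4194 < c ∧ c < 0.4195 := by
  have hone : Adm 1 := by
    refine ⟨squarefree_one, rfl, fun p hp h1 => ?_⟩
    exact absurd (Nat.dvd_one.1 h1) hp.one_lt.ne'
  refine ⟨fun x hx => ?_, Pool.Agent.Results.MP_6e2fc3_nt.CMFormsAllWeights.result.2.2.2.1,
    Pool.Agent.Results.MP_6e2fc3_nt.CMFormsAllWeights.result.2.2.2.2⟩
  have h := prop_good (n := 0) (M := 1) (d := fun i : Fin 0 => tower 1 i) hone (fun i => i.elim0)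
    (fun T hT => by
      obtain ⟨i, _⟩ := hT
      exact i.elim0) (x := x) (by simpa using hx)
  filter_upwards [h] with X hX
  refine lt_of_lt_of_le hX ?_
  unfold prop
  refine div_le_div_of_nonneg_right (Nat.cast_le.2 (Finset.card_le_card fun D hD => ?_))
    (Nat.cast_nonneg _)
  obtain ⟨h1, h2, h4⟩ := Finset.mem_filter.1 hD
  refine Finset.mem_filter.2 ⟨h1, h2, infinite_of h2 ?_⟩
  rw [one_mul] at h4
  have e : (fun i : Fin 0 => tower D i) = fun i : Fin 0 => tower 1 i := funext fun i => i.elim0
  rw [e]
  exact h4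

end Pool.Agent.Results.MP_d4aa36_nt.InfiniteTowersCMForms
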